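import Pool.Agent.H851.CY.Main

/-!
# The motivated Mumford-Tate conjecture for motives of Calabi-Yau type: one irreducibility suffices

Let `M` be an absolutely simple motive of André over a finitely generated subfield `k` of `ℂ`, with
`h^(w,0) = 1` (Calabi-Yau type; `(w, 0)` is the largest type which occurs, after a Tate twist). Suppose that
the motivic Galois group of `M` is contained in a reductive group `G ⊆ GL(V)`, `V = r_B(M)`, which contains
the Hodge cocharacter and is defined by motivated classes; for example the motivic Galois group itself,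
the group of similitudes of a polarization, or the stabilizer of a motivated tensor. Let `𝔤` be the Lie
algebra of `G` and `𝔤 ^ (j, -j)` the part of type `(j, -j)` of `𝔤 ⊗ ℂ`. Suppose that

* `𝔤 ⊗ ℂ` is generated as a Lie algebra by `𝔤 ^ (-1, 1)`, `𝔤 ^ (1, -1)` and the scalars;
* (Torelli) `y = 0` is the only element of `𝔤 ^ (-1, 1)` which kills the line `V ^ (w, 0)`, and the only
  element of `𝔤 ^ (1, -1)` which kills `V ^ (0, w)`.

Examples are all Hermitian variations of Calabi-Yau type: `G` of type `SO(2, m)` with the Hodge numbers
`(1, m, 1)` (K3 type), and with the harmonic part of `Sym ^ c`; `Sp(6)`, `SU(3, 3)`, `SO*(12)`, `E₇` with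
the Hodge numbers `(1, 6, 6, 1)`, `(1, 9, 9, 1)`, `(1, 15, 15, 1)`, `(1, 27, 27, 1)`; `Sp(2 m)` and
`SO*(4 m)` with the exterior power or the half-spin representation which has a line as its highest
Hodge piece; `SL(2) × SO(2, m)` with the Hodge numbers `(1, m + 1, m + 1, 1)`; all tensor products of such
motives; all adjoint motives `Lie G` with `h^(2,-2) = 1`, of any simple type (for `E₈` these are the Hodge
numbers `(1, 56, 134, 56, 1)`).

**Theorem.** (1) The Mumford-Tate group of `M` is `G` (and so it is the motivic Galois group) if and only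
if the Hodge structure `V` is absolutely simple. (2) For each prime number `ℓ`: the identity component of
the `ℓ`-adic monodromy group of `M` is `G ⊗ ℚ_ℓ` if and only if the `ℓ`-adic realization is absolutely
irreducible for all open subgroups of the Galois group. So if this is so for ONE prime number `ℓ`, then
the motivic Galois group is `G`. (3) The motivated Mumford-Tate conjecture for `M` and `ℓ`, the equality of
the three groups, is equivalent to these two irreducibilities. All classes on all tensor powers of `M` are
thus controlled by the endomorphisms of `M`.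

For the second cohomology of a variety `X` with `h^{2,0} = 1` (after a Tate twist, and on the part orthogonal to
the algebraic classes, if its endomorphisms are scalars) `G` is `SO(2, m)` and the theorem says: the Mumford-Tate
conjecture at `ℓ`, which is necessary for a bounded index at all primes, is on the level of Lie algebras equivalent to
the absolute irreducibility of the Hodge structure and of the `ℓ`-adic realization for all open subgroups. No
assumption on the moduli of `X` is needed.

In particular nothing is assumed about the semisimplicity of the realization, on the field `k`, or about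
Frobenius elements. The only arithmetic inputs are that motivated classes are Tate classes, and that the
Lie algebra of the image contains the Hodge-Tate operator, which is a conjugate of the Hodge operator
(Sen, Faltings). In general (without the condition that `h^(w,0) = 1`, or without the second condition)
irreducibility is not enough: the group `SL(2) × SO(g)` acts irreducibly on the standard representation of
`Sp(2 g)`, and contains the Hodge cocharacter of an abelian variety.

The conjecture is stated in terms of Lie algebras, as in `HyperKahlerAllDegrees`: `mtLie D` is the Lie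
algebra of the Mumford-Tate group, the smallest Lie algebra over `ℚ` which contains the Hodge operator `D`
over `ℂ`, `𝔪` is the Lie algebra of the motivic Galois group, and `LieImage ρ` is the Lie algebra of the
image of the Galois group. A subspace is stable under the Lie algebra of the image if and only if it is
stable under an open subgroup.

The proof. Let `𝔩` be an irreducible Lie algebra between the Hodge operator `D` and `𝔤 ⊗ ℂ`. It is graded
by the operator `D`. If `v` is a highest Hodge vector then `V` is spanned by the products
`y_1 ⋯ y_r v` with elements `y_i` of `𝔩` of negative degrees. In degree `w - 1` this means that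
`V ^ (w - 1, 1) = 𝔩 ^ (-1, 1) v`. So for `y` in `𝔤 ^ (-1, 1)` there is an element `x` of `𝔩 ^ (-1, 1)` with
`y v = x v`, and by the Torelli condition `y = x`. Hence `𝔩` contains the parts of types `(-1, 1)` and
`(1, -1)` of `𝔤`, and so the Lie algebra generated by them. The Galois group is treated in the same way,
with the Hodge-Tate operator.
-/

set_option autoImplicit false

namespace Pool.Agent.Results.MP_2b5912_ag.CalabiYauType

open Pool.Agent.H851 Pool.Agent.H851.CY
open Pool.Agent.NH56.HY (LieImage mtLie)

/-- **Motives of Calabi-Yau type.** `H` is the Hodge decomposition of `V ⊗ ℂ`, `V = ℚ ^ n`, with a line as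
its highest and as its lowest piece. `𝔤` is the Lie algebra of the group `G`, `𝔪 ⊆ 𝔤` the Lie algebra of the
motivic Galois group of `M`, which is absolutely simple, and `ρ` is the `ℓ`-adic realization. -/
theorem result {n : Type} [Fintype n] [DecidableEq n] (H : Hodge n)
    (𝔤 𝔪 : Submodule ℚ (Matrix n n ℚ)) (hG : IsCalabiYau H 𝔤) (hmt : mtLie H.D ≤ 𝔪) (h𝔪 : 𝔪 ≤ 𝔤)
    (hM : Irreducible ℂ (matOver ℂ (𝔪 : Set (Matrix n n ℚ))))
    {ℓ : ℕ} [Fact ℓ.Prime] {Γ : Type} [Group Γ] (ρ : Γ →* Matrix n n ℚ_[ℓ])
    (hR : IsRealization H 𝔤 𝔪 ρ) :
    -- (1)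
    (Irreducible ℂ (matOver ℂ (mtLie H.D : Set (Matrix n n ℚ))) ↔ mtLie H.D = 𝔤 ∧ 𝔪 = 𝔤) ∧
    -- (2)
    (Irreducible ℂ_[ℓ] (matOver ℂ_[ℓ] (LieImage ρ Set.univ)) ↔
      LieImage ρ Set.univ = ext ℚ_[ℓ] 𝔤 ∧ 𝔪 = 𝔤) ∧
    -- (3)
    ((mtLie H.D = 𝔪 ∧ LieImage ρ Set.univ = ext ℚ_[ℓ] 𝔪) ↔
      (Irreducible ℂ (matOver ℂ (mtLie H.D : Set (Matrix n n ℚ))) ∧
        Irreducible ℂ_[ℓ] (matOver ℂ_[ℓ] (LieImage ρ Set.univ)))) := by
  have h1 : Irreducible ℂ (matOver ℂ (mtLie H.D : Set (Matrix n n ℚ))) ↔
      mtLie H.D = 𝔤 ∧ 𝔪 = 𝔤 := by
    constructor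
    · intro h
      have h2 := hodge_eq H hG h
      exact ⟨h2, le_antisymm h𝔪 (by rw [← h2]; exact hmt)⟩
    · rintro ⟨h2, h3⟩
      rw [h2, ← h3]
      exact hM
  have hι := hR.sen
  obtain ⟨ι, -⟩ := hι
  have hMℓ := irr_transport ι 𝔪 hM
  have h2 : Irreducible ℂ_[ℓ] (matOver ℂ_[ℓ] (LieImage ρ Set.univ)) ↔
      LieImage ρ Set.univ = ext ℚ_[ℓ] 𝔤 ∧ 𝔪 = 𝔤 := by
    constructor
    · intro h
      have h3 := galois_eq H ρ hG h𝔪 hR h
      refine ⟨h3, le_antisymm h𝔪 fun x hx => ?_⟩
      have h4 : x.map (algebraMap ℚ ℚ_[ℓ]) ∈ LieImage ρ Set.univ := by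
        rw [h3]
        exact mem_ext hx
      exact mem_of_ext (hR.tate h4)
    · rintro ⟨h3, h4⟩
      rw [h3, ← h4]
      exact hMℓ
  refine ⟨h1, h2, ?_⟩
  constructor
  · rintro ⟨h3, h4⟩
    constructor
    · rw [h3]
      exact hM
    · rw [h4]
      exact hMℓ
  · rintro ⟨h3, h4⟩
    obtain ⟨h5, h6⟩ := h1.1 h3
    obtain ⟨h7, -⟩ := h2.1 h4
    rw [h5, h7, h6]
    exact ⟨rfl, rfl⟩

end Pool.Agent.Results.MP_2b5912_ag.CalabiYauType
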