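import Pool.Graph.R_pool_sql_team_seeded_1acbe0a2.Results.MP_2b5912_ag.FrobeniusCriterion
import Pool.Agent.H853.Bch
import Pool.Agent.H853.Elim

/-!
# Bounded index and absolute irreducibility, for lattices of every rank with generic Frobenius elements

The notation is that of `IntegralProducts`: `Γ` is the Galois group of a sufficiently large finite
extension of `k`, and the `T_i` are the transcendental lattices of `H²(X_i)(1)` (Mumford–Tate groups
`SO(T_i)`), of rank `3` or `≥ 5`. **The rank may be even**; the criterion `FrobeniusCriterion` of the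
library is about odd ranks, where the Frobenius elements have a fixed vector, and its method does not
apply to even ranks.

We assume that there are two Frobenius elements, at places of different residue characteristics `p` and
`q`, whose characteristic polynomials `P` on `T_i`, which have rational coefficients independent of `l`,
are *generic*: the complex roots are simple, `-1` is not a root (this follows from the determinant `1`
if the roots are simple), and if `a b = c d` for roots `a ≠ b` and `c ≠ d` then `a b = 1` or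
`{a, b} = {c, d}`. This is true for almost all elements of `SO(T_i)`; it can be checked by counting points.

We prove that Q1 holds for the product `X` of the `X_i` if and only if the Galois modules `T_i ⊗ ℚ_l` for
all `l`, and `T_i ⊗ 𝔽_l` for almost all `l`, are absolutely irreducible under all subgroups of `Γ` of
index at most `5 ^ (2 n²)`, `n = rank T_i`, and for `i ≠ j` the modules `Λ²T_i` and `Λ²T_j` have different
characters. In particular, for one such `X`, Q1 (which implies the Mumford–Tate conjecture) is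
equivalent to the absolute irreducibility of `T ⊗ ℚ_l` and `T ⊗ 𝔽_l` under these subgroups. Nothing is
assumed about the degeneration of `X`.

Idea: (1) Let `L` be algebraically closed, `V = T ⊗ L`, `F` a generic isometry with the eigenvectors
`v_x`, and let `M` be a subspace of `so(V)` which is stable under `Γ`. By the condition on the
eigenvalues every operator on `so(V)` which is diagonal in the basis `v_x ∧ v_y` and kills the
`v_x ∧ v_x*` (`x*` is the index of the inverse eigenvalue) is a polynomial in the conjugation by `F`. So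
the whole torus of `F` normalizes `M`: the normalizer `N` of `M` in `so(V)`, a Lie algebra which is
stable under `Γ`, contains the `v_x ∧ v_x*`. (2) The `N`-stable subspaces of `V` are spanned by some of
the `v_x`; the minimal ones are at most `n` subspaces, which are permuted by `Γ`; so `V` is irreducible
under `N` by the strong irreducibility under `Γ`. (3) If `N` contains `v_x ∧ v_y` and `v_y* ∧ v_z` then it
contains `v_x ∧ v_z`, unless `x = z`. Starting with `v_z`, the vectors which are reached by the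
elements `v_x ∧ v_y` of `N` span an `N`-stable subspace, so all of them are reached, and this shows
`N = so(V)`. So `M` is an ideal, `M = 0` or `M = so(V)`. (4) The condition on the roots of `P` is
inherited by the fields of characteristic `0`, and by those of characteristic `l` for almost all `l`:
the equations which express a relation have no solution in characteristic `0`, so they generate an
ideal of `ℤ[a, b, c, d, t]` which contains a positive integer. (5) If the image over `ℤ_l` is finite, or
the image modulo `l` has an order prime to `l`, then by Jordan's theorem a subgroup of index at most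
`5 ^ (2 n²)` has an abelian image, and is not absolutely irreducible. (6) The other direction: a
subgroup of bounded index of `SO(T)(ℤ_l)` contains powers of all elements, and the span of these over any
extension of `ℚ_l` contains `so(T)`; modulo `l` one uses Eichler transformations.
-/

namespace Pool.Agent.Results.MP_2b5912_ag.FrobeniusEveryRank

open Polynomial Pool.Agent.Y127.I Pool.Agent.Results.MP_2b5912_ag.IntegralProducts
  Pool.Agent.H853.Root Pool.Agent.H853.Elim
open Pool.Agent.Results.MP_2b5912_ag.FrobeniusCriterion (IrrUpTo rhoF rhoF_isom le_bound p_two')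

/-- The complex roots of `P` are simple, `-1` is not a root, and `a b = c d` for roots `a ≠ b` and
`c ≠ d` only if `a b = 1` or `{a, b} = {c, d}`. -/
structure IsGeneric (P : ℚ[X]) : Prop where
  simple : ∀ a : ℂ, aeval a P = 0 → aeval a P.derivative ≠ 0
  neg_one : P.eval (-1) ≠ 0
  rel : ∀ a b c d : ℂ, aeval a P = 0 → aeval b P = 0 → aeval c P = 0 → aeval d P = 0 →
    a ≠ b → c ≠ d → a * b = c * d → a * b = 1 ∨ a = c ∨ a = d

section

variable {Γ : Type} [Group Γ] [TopologicalSpace Γ]

/-- Some element of `Γ` has on all `T ⊗ ℚ_l`, `l ≠ p`, the same characteristic polynomial, which has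
rational coefficients and is generic. -/
def GenericFrob (T : Sys Γ) (p : ℕ) : Prop :=
  ∃ P : ℚ[X], IsGeneric P ∧ ∃ γ : Γ, ∀ (l : ℕ) [Fact l.Prime], l ≠ p →
    (T.mat l γ).charpoly.map (PadicInt.Coe.ringHom : ℤ_[l] →+* ℚ_[l]) = P.map (algebraMap ℚ ℚ_[l])

/-- `T` has generic Frobenius elements at two different primes. -/
def GenericSys (T : Sys Γ) : Prop := ∃ p q : ℕ, p ≠ q ∧ GenericFrob T p ∧ GenericFrob T q

/-- For a homomorphism `f` from `ℤ_l` to a field `F`: no proper subspace of `T ⊗ F'`, where `F'` is the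
algebraic closure of `F`, is stable under a subgroup of `Γ` of index at most `N`. -/
def AbsIrrUpTo (T : Sys Γ) (N l : ℕ) [Fact l.Prime] {F : Type} [Field F] (f : ℤ_[l] →+* F) : Prop :=
  IrrUpTo T N l ((algebraMap F (AlgebraicClosure F)).comp f)

/-- `T ⊗ ℚ_l` for all `l` and `T ⊗ 𝔽_l` for almost all `l` are absolutely irreducible under the
subgroups of index at most `N`. -/
structure AbsIrreducible (T : Sys Γ) (N : ℕ) : Prop where
  rat : ∀ (l : ℕ) [Fact l.Prime], AbsIrrUpTo T N l (PadicInt.Coe.ringHom : ℤ_[l] →+* ℚ_[l])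
  mod : ∃ L : ℕ, ∀ (l : ℕ) [Fact l.Prime], L ≤ l →
    AbsIrrUpTo T N l (PadicInt.toZMod : ℤ_[l] →+* ZMod l)

/-! ### The proof -/

theorem IsGeneric.exists_int {P : ℚ[X]} (h : IsGeneric P) : ∃ (R : ℤ[X]) (n : ℤ) (N : ℕ), n ≠ 0 ∧
    N ≠ 0 ∧ C (n : ℚ) * P = R.map (Int.castRingHom ℚ) ∧
    ∀ (L : Type) [Field L], (N : L) ≠ 0 → GoodZ R L := by
  obtain ⟨n, hnS, hn⟩ := IsLocalization.integerNormalization_spec (nonZeroDivisors ℤ) P
  set R := IsLocalization.integerNormalization (nonZeroDivisors ℤ) P with hR
  have hn0 : (n : ℤ) ≠ 0 := nonZeroDivisors.ne_zero hnS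
  have hmap : C ((n : ℤ) : ℚ) * P = R.map (Int.castRingHom ℚ) := by
    have h4 : (algebraMap ℤ ℚ) = Int.castRingHom ℚ := rfl
    rw [h4] at hn
    rw [hn]
    ext k
    rw [coeff_smul, coeff_C_mul, zsmul_eq_mul]
  have hnC : ((n : ℤ) : ℂ) ≠ 0 := by exact_mod_cast hn0
  have hroot : ∀ b : ℂ, ev R b = (n : ℤ) * aeval b P := by
    intro b
    rw [← aeval_ev (F := ℚ), ← hmap, map_mul, aeval_C]
    simp
  have hder : ∀ b : ℂ, ev R.derivative b = (n : ℤ) * aeval b P.derivative := by
    intro b
    have h1 := congrArg derivative hmap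
    rw [derivative_C_mul, derivative_map] at h1
    rw [← aeval_ev (F := ℚ), ← h1, map_mul, aeval_C]
    simp
  have hz : ∀ b : ℂ, ev R b = 0 → aeval b P = 0 := fun b hb => by
    rw [hroot] at hb
    exact (mul_eq_zero.1 hb).resolve_left hnC
  have hC : GoodZ R ℂ := by
    refine ⟨fun a ha hda => ?_, fun h1 => ?_, fun a b c d ha hb hc hd => ?_⟩
    · rw [hder] at hda
      exact h.simple a (hz a ha) ((mul_eq_zero.1 hda).resolve_left hnC)
    · have h3 := hz _ h1
      apply h.neg_one
      have h5 : aeval (algebraMap ℚ ℂ (-1)) P = 0 := by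
        rw [map_neg, map_one]
        exact h3
      rw [aeval_algebraMap_apply, map_eq_zero, coe_aeval_eq_eval] at h5
      exact h5
    · exact h.rel a b c d (hz a ha) (hz b hb) (hz c hc) (hz d hd)
  have hR0 : R ≠ 0 := by
    intro h4
    apply hC.neg
    rw [h4]
    unfold ev
    rw [eval₂_zero]
  obtain ⟨N, hN0, hN⟩ := goodZ_fin hR0 hC
  exact ⟨R, n, N, hn0, hN0, hmap, hN⟩

theorem good_of_eq {L : Type} [Field L] {R : ℤ[X]} {n : ℤ} {Q : L[X]}
    (h : C (n : L) * Q = R.map (Int.castRingHom L)) (hg : GoodZ R L) : Good Q := by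
  have hroot : ∀ a, Q.IsRoot a → ev R a = 0 := by
    intro a ha
    have h1 := congrArg (eval a) h
    rw [eval_mul, eval_map, show eval a Q = 0 from ha, mul_zero] at h1
    exact h1.symm
  refine ⟨fun a ha hda => hg.sep a (hroot a ha) ?_, fun h1 => hg.neg (hroot _ h1),
    fun a b c d ha hb hc hd => hg.rel a b c d (hroot a ha) (hroot b hb) (hroot c hc) (hroot d hd)⟩
  have h1 := congrArg (fun p => eval a (derivative p)) h
  simp only [derivative_C_mul, derivative_map] at h1
  rw [eval_mul, eval_map, show eval a Q.derivative = 0 from hda, mul_zero] at h1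
  exact h1.symm

theorem good_of_frob {P : ℚ[X]} {R : ℤ[X]} {n : ℤ}
    (hmap : C (n : ℚ) * P = R.map (Int.castRingHom ℚ)) {l : ℕ} [Fact l.Prime] {m : ℕ}
    {U : Matrix (Fin m) (Fin m) ℤ_[l]}
    (hU : U.charpoly.map (PadicInt.Coe.ringHom (p := l)) = P.map (algebraMap ℚ ℚ_[l]))
    {L : Type} [Field L] (f : ℤ_[l] →+* L) (hg : GoodZ R L) :
    Good (U.map f).charpoly := by
  have hint : C ((n : ℤ) : ℤ_[l]) * U.charpoly = R.map (Int.castRingHom ℤ_[l]) := by
    refine Polynomial.map_injective (PadicInt.Coe.ringHom (p := l))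
      (fun x y hxy => PadicInt.ext hxy) ?_
    rw [Polynomial.map_mul, hU, map_C, Polynomial.map_map]
    have h2 := congrArg (Polynomial.map (algebraMap ℚ ℚ_[l])) hmap
    rw [Polynomial.map_mul, map_C, Polynomial.map_map] at h2
    have e1 : (algebraMap ℚ ℚ_[l]).comp (Int.castRingHom ℚ) =
      (PadicInt.Coe.ringHom (p := l)).comp (Int.castRingHom ℤ_[l]) := RingHom.ext_int _ _
    rw [e1, map_intCast] at h2
    rw [map_intCast]
    exact h2
  refine good_of_eq (n := n) (R := R) ?_ hg
  have h2 := congrArg (Polynomial.map f) hint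
  rw [Polynomial.map_mul, map_C, Polynomial.map_map, map_intCast] at h2
  have e1 : f.comp (Int.castRingHom ℤ_[l]) = Int.castRingHom L := RingHom.ext_int _ _
  rw [e1] at h2
  rw [Matrix.charpoly_map]
  exact h2

/-- The characteristic polynomial of `γ` on `T ⊗ L` is good. -/
def GoodRho (T : Sys Γ) (l : ℕ) [Fact l.Prime] {L : Type} [Field L] (f : ℤ_[l] →+* L) (γ : Γ) :
    Prop := Good (rhoF T l f γ).charpoly

theorem good_frob_L {T : Sys Γ} {P : ℚ[X]} {R : ℤ[X]} {n : ℤ} {N : ℕ}
    (hmap : C (n : ℚ) * P = R.map (Int.castRingHom ℚ))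
    (hR : ∀ (L : Type) [Field L], (N : L) ≠ 0 → GoodZ R L) {l : ℕ} [Fact l.Prime] {γ : Γ}
    (hγ : (T.mat l γ).charpoly.map (PadicInt.Coe.ringHom : ℤ_[l] →+* ℚ_[l]) =
      P.map (algebraMap ℚ ℚ_[l])) {L : Type} [Field L] (f : ℤ_[l] →+* L) (hN : (N : L) ≠ 0) :
    GoodRho T l f γ :=
  good_of_frob hmap hγ f (hR L hN)

theorem exists_good {T : Sys Γ} (hg : GenericSys T) (l : ℕ) [Fact l.Prime] {L : Type} [Field L]
    [CharZero L] (f : ℤ_[l] →+* L) : ∃ γ, GoodRho T l f γ := by
  obtain ⟨p, q, hpq, ⟨P, hP, γ, hγ⟩, ⟨Q, hQ, δ, hδ⟩⟩ := hg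
  by_cases h : l = p
  · obtain ⟨R, n, N, hn, hN, hmap, hR⟩ := hQ.exists_int
    exact ⟨δ, good_frob_L hmap hR (hδ l (by rw [h]; exact hpq)) f (by exact_mod_cast hN)⟩
  · obtain ⟨R, n, N, hn, hN, hmap, hR⟩ := hP.exists_int
    exact ⟨γ, good_frob_L hmap hR (hγ l h) f (by exact_mod_cast hN)⟩

theorem cast_ne {F L : Type} [Field F] [Field L] (σ : F →+* L) {N : ℕ} (hN : (N : F) ≠ 0) :
    (N : L) ≠ 0 := by
  have h4 := (_root_.map_ne_zero σ).2 hN
  rwa [map_natCast] at h4

theorem exists_good_mod {T : Sys Γ} (hg : GenericSys T) : ∃ K : ℕ, ∀ (l : ℕ) [Fact l.Prime],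
    K ≤ l → ∃ γ, GoodRho T l ((algebraMap (ZMod l) (AlgebraicClosure (ZMod l))).comp
      (PadicInt.toZMod : ℤ_[l] →+* ZMod l)) γ := by
  obtain ⟨p, q, hpq, ⟨P, hP, γ, hγ⟩, _⟩ := hg
  obtain ⟨R, n, N, hn, hN, hmap, hR⟩ := hP.exists_int
  refine ⟨N + p + 1, fun l hl hlK => ⟨γ, ?_⟩⟩
  have hlp : l ≠ p := by omega
  have h1 := zmod_ne (p := l) (z := (N : ℤ)) (by exact_mod_cast hN)
    (by rw [Int.natAbs_natCast]; omega)
  rw [Int.cast_natCast] at h1
  exact good_frob_L hmap hR (hγ l hlp) _ (cast_ne (algebraMap (ZMod l) _) h1)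

/-- Irreducibility of the Lie algebra. -/
theorem adIrr_of_good {T : Sys Γ} (l : ℕ) [Fact l.Prime] {F L : Type} [Field F] [Field L]
    [IsAlgClosed L] (σ : F →+* L) (f : ℤ_[l] →+* F) (h2 : (2 : F) ≠ 0)
    (hd : (T.B.map (Int.cast : ℤ → F)).det ≠ 0)
    (habs : IrrUpTo T (5 ^ (2 * (T.n * T.n))) l (σ.comp f))
    (hgood : ∃ γ, GoodRho T l (σ.comp f) γ) : AdIrr T l f := by
  intro M hM hst
  have h2' : (2 : L) ≠ 0 := by
    have h1 := (_root_.map_ne_zero σ).2 h2
    rwa [map_ofNat] at h1
  refine irr_descend σ (r := fun γ => (T.mat l γ).map f)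
    (r' := fun γ => (T.mat l γ⁻¹).map f) (fun M' hM' hst' => ?_) hM hst
  refine irr_of_good (ρ := rhoF T l (σ.comp f))
    (symm_map _ (symm_cast T.symm)) (det_map_ne _ hd) h2' T.rank (fun γ => ?_)
    (fun Δ h0 hi => habs Δ h0 (hi.trans (le_bound _))) hgood hM' (fun γ X hX => ?_)
  · rw [map_cast]
    exact rhoF_isom _ _ _ _
  · exact hst' γ X hX

/-- The image is not virtually abelian. -/
theorem not_ab {T : Sys Γ} (l : ℕ) [Fact l.Prime] {L : Type} [Field L]
    [IsAlgClosed L] (f : ℤ_[l] →+* L) {N : ℕ} (habs : IrrUpTo T N l f) {D : Subgroup Γ}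
    (hD0 : D.index ≠ 0) (hDJ : D.index ≤ N)
    (hD : ∀ a ∈ D, ∀ b ∈ D, (T.mat l a).map f * (T.mat l b).map f =
      (T.mat l b).map f * (T.mat l a).map f) : False := by
  have hn2 : 2 ≤ T.n := by have := T.rank; omega
  exact not_abelian hn2 (ρ := rhoF T l f) (D := D) hD (habs D hD0 hDJ)

theorem crit_of_generic {T : Sys Γ} (hg : GenericSys T) (hs : AbsIrreducible T (5 ^ (2 * T.n ^ 2))) :
    Crit T := by
  rw [sq] at hs
  refine ⟨?_, ?_, ?_, ?_⟩
  · intro l hl
    have : CharZero (AlgebraicClosure ℚ_[l]) :=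
      charZero_of_injective_algebraMap (algebraMap ℚ_[l] (AlgebraicClosure ℚ_[l])).injective
    refine adIrr_of_good l (algebraMap ℚ_[l] (AlgebraicClosure ℚ_[l])) _ two_ne_zero ?_ (hs.rat l)
      (exists_good hg l _)
    rw [det_cast]
    exact_mod_cast T.det_ne
  · intro l hl
    rcases inf_or_abelian (T.ρ l) with h | ⟨D, hD0, hDJ, hD⟩
    · exact h
    · exfalso
      refine not_ab l _ (hs.rat l) hD0 hDJ fun a ha b hb => ?_
      have h1 : T.mat l a * T.mat l b = T.mat l b * T.mat l a :=
        congrArg (fun u : GL (Fin T.n) ℤ_[l] => (u : Matrix (Fin T.n) (Fin T.n) ℤ_[l]))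
          (hD a ha b hb)
      rw [← Matrix.map_mul, h1, Matrix.map_mul]
  · obtain ⟨K, hK⟩ := hs.mod
    obtain ⟨K', hK'⟩ := exists_good_mod hg
    refine ⟨K + K' + T.B.det.natAbs + 7, fun l hl hlL => ?_⟩
    refine adIrr_of_good l (algebraMap (ZMod l) (AlgebraicClosure (ZMod l))) _ (p_two' (by omega)) ?_
      (hK l (by omega)) (hK' l (by omega))
    rw [det_cast]
    exact int_cast_ne T.det_ne (by omega)
  · obtain ⟨K, hK⟩ := hs.mod
    refine ⟨K + T.B.det.natAbs + 7, fun l hl hlL => ?_⟩
    rcases ord_or_abelian (T.ρ l) with ⟨γ, hγ1, hγ2⟩ | ⟨D, hD0, hDJ, hD⟩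
    · exact ⟨γ, hγ1, hγ2⟩
    · exfalso
      refine not_ab l _ (hK l (by omega)) hD0 hDJ fun a ha b hb => ?_
      have h1 : (T.mat l a).map (PadicInt.toZMod (p := l)) * (T.mat l b).map PadicInt.toZMod =
        (T.mat l b).map PadicInt.toZMod * (T.mat l a).map PadicInt.toZMod := hD a ha b hb
      have h3 := congrArg (fun u : Matrix (Fin T.n) (Fin T.n) (ZMod l) =>
        u.map (algebraMap (ZMod l) (AlgebraicClosure (ZMod l)))) h1
      simp only [Matrix.map_mul] at h3
      exact h3

theorem irreducible_of_bounded {T : Sys Γ} (h : Bounded T) (N : ℕ) : AbsIrreducible T N := by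
  obtain ⟨C, hC⟩ := h
  have hn3 : 3 ≤ T.n := by have := T.rank; omega
  refine ⟨fun l hl Δ h0 hi W hW => ?_, ⟨C + T.B.det.natAbs + T.n + N + 7,
    fun l hl hlL Δ h0 hi W hW => ?_⟩⟩
  · refine abs_padic (algebraMap ℚ_[l] (AlgebraicClosure ℚ_[l])) (symm_cast T.symm)
      (det_cast_ne T.det_ne) hn3 (hC l).1 (hC l).2 h0 fun γ hγ x hx => ?_
    exact hW γ hγ x hx
  · refine abs_mod (algebraMap (ZMod l) (AlgebraicClosure (ZMod l)))
      (A := T.B.map (Int.cast : ℤ → ZMod l)) (symm_cast T.symm)
      (by rw [det_cast]; exact int_cast_ne T.det_ne (by omega)) hn3 (by omega)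
      (ρ := rhoF T l (PadicInt.toZMod : ℤ_[l] →+* ZMod l)) ?_ h0 (by omega)
      fun γ hγ x hx => hW γ hγ x hx
    intro e v hev
    exact crit_E T.symm T.det_ne T.rank (hC l).1 (hC l).2 (by omega) (by omega) hev

end

/-- **Theorem.** Let `Γ` be a compact group and `T_i` finitely many systems of orthogonal
representations of any ranks (`3` or `≥ 5`, even or odd) with generic Frobenius elements at two
different primes, such that the Frobenius elements are dense (even if finitely many primes are
omitted). The following are equivalent: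
(1) the index of the image of `Γ` in `∏ SO(T_i)(ℤ_l)` is bounded independently of `l`;
(2) for every `i` the index of the image of `Γ` in `SO(T_i)(ℤ_l)` is bounded independently of `l`, and
for `i ≠ j` the characters of `Λ²T_i` and `Λ²T_j` are different for some `l`;
(3) for every `i` and `N` the modules `T_i ⊗ ℚ_l` for all `l` and `T_i ⊗ 𝔽_l` for almost all `l` are
absolutely irreducible under the subgroups of `Γ` of index at most `N`, and the same condition on the
characters;
(4) the same for `N = 5 ^ (2 n²)`, `n = rank T_i`, and the same condition on the characters. -/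
theorem result (Γ : Type) [Group Γ] [TopologicalSpace Γ] [CompactSpace Γ] (ι : Type) [Finite ι]
    (T : ι → Sys Γ) (hF : ∀ S : Finset ℕ, Dense {γ : Γ | ∃ p, p ∉ S ∧ Frob T p γ})
    (hg : ∀ i, GenericSys (T i)) :
    List.TFAE [BoundedProd T, (∀ i, Bounded (T i)) ∧ Different T,
      (∀ i N, AbsIrreducible (T i) N) ∧ Different T,
      (∀ i, AbsIrreducible (T i) (5 ^ (2 * (T i).n ^ 2))) ∧ Different T] := by
  have h := IntegralProducts.result Γ ι T hF
  have h31 : (∀ i, Crit (T i)) ∧ Different T → BoundedProd T := (h.out 2 0).1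
  tfae_have 1 ↔ 2 := h.out 0 1
  tfae_have 2 → 3 := fun h => ⟨fun i => irreducible_of_bounded (h.1 i), h.2⟩
  tfae_have 3 → 4 := fun h => ⟨fun i => h.1 i _, h.2⟩
  tfae_have 4 → 1 := fun h' => h31 ⟨fun i => crit_of_generic (hg i) (h'.1 i), h'.2⟩
  tfae_finish

end Pool.Agent.Results.MP_2b5912_ag.FrobeniusEveryRank
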