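import Pool.Agent.H367.OS.OTan

/-!
# The integral Mumford-Tate conjecture for `H^2` and single pieces of one sequence of cubics

A relation `r` of size `m` is one of the equations `x_i x_j = x_l`, `x_i + x_j = x_l`, `x_i = 1` with
`i, j, l < m`; the relations are numbered, the number of `r` is `ν(r)` (`relNum`). Let `G_m` be the
following polynomial with integral coefficients (`univG ℤ m`). There are variables `x_i` and `z_ij` for
`i, j < m`, a variable `c_r` for every relation `r`, and variables `y_{r,l}` for all relations `r` and
`l < (m + 1) 2 ^ ν(r)`. The equations (`eqnG`) are

  `z_ij - x_i x_j`,  `c_r ^ 2 - c_r`,  `c_r ρ_r`,  `(1 - c_r) y_{r,l}`,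

where `ρ_r` is the linear polynomial `z_ij - x_l`, `x_i + x_j - x_l` or `x_i - 1` of the relation.
`G_m` is the sum of the equations multiplied by further variables `t_e`, one for each equation. It has
degree three. Let `C_m` be the affine cubic hypersurface `G_m = 1` (`cubG R m` over the ring `R`); it is
smooth over the integers.

Let `M` be the category of motives over `ℚ` (motivated cycles), a semisimple abelian category with
Tate twists `N ↦ N(a)`. For a separated scheme `X` of finite type over `ℚ` let `D.G w j X = Gr^W_w
H^j_c(X)` be the part of weight `w` of the cohomology with compact supports, a motive over `ℚ`; for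
smooth projective `Y` it is `h^j(Y)` if `j = w`, and zero otherwise.

For a motive `N` over `ℚ` let `bounded N` be the following statement. Let `Λ` be a lattice in the
Betti realization of `N` such that `Λ ⊗ ℤ_ℓ` is stable under the Galois group of `k` for all `ℓ`,
where `k` is a number field over which the `ℓ`-adic monodromy groups are connected, and let `𝐆` be the
Zariski closure of the Mumford-Tate group in `𝐆𝐋(Λ)`. Then there is a constant `C` such that for all
primes `ℓ` the image of the Galois group of `k` in `GL(Λ ⊗ ℤ_ℓ)` is a subgroup of `𝐆(ℤ_ℓ)` of index at
most `C`. The statement does not depend on `Λ` or on `k`: for two lattices the groups are equal for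
almost all `ℓ` and commensurable for the others. Question Q1 for `X` over `ℚ` is `bounded
(h^2(X)(1))`.

The property is inherited by direct factors (hypothesis `inherit`): for a direct factor `N` of `N'` the
Mumford-Tate group of `N` is the image of that of `N'`, and the index of the image of `𝐆'(ℤ_ℓ)` in
`𝐆(ℤ_ℓ)` is bounded (a theorem of Lang for almost all `ℓ`, and open images for the others).

For a finitely generated field `K` of characteristic zero and a smooth projective scheme `X` over `K`
let `Bounded K X` be the statement of question Q1 for `X`. It follows from the statement for `ℚ`
(hypothesis `FromQfg`): there is a specialization of `X` over a number field with the same adelic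
image of Galois up to a bounded index for all `ℓ` (Serre, Cadoret), and a variety over a number field
is a smooth projective scheme over `ℚ`, whose cohomology is the direct sum of the conjugates.

**Theorem.** Let `E_m` be the number of the equations, and for `N ∈ ℕ` let `e = (m + 1) N + E_m - 1`
(`esh m N`).

(1) Question Q1 has a positive answer for all smooth projective varieties over all finitely generated
fields if and only if for infinitely many `m` the statement `bounded` is true for the single motives
`Gr^W_{2+2e} H^{2e+3}_c(C_m)(1 + e)` of weight `0`, for all `N`.

(2) The hypersurfaces `C_m` decide the statement for the pieces of the cohomology (`DecidesPieces`).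
For every affine scheme `Spec B` of finite type over `ℚ` and all large `m` there is an `N` such that
for `0 ≤ w ≤ 2 m + 1` and all `j` the statement for `Gr^W_w H^j_c(Spec B)` is equivalent to the one
for `Gr^W_{w+2e} H^{j+2e+1}_c(C_m)`. For every smooth projective `Y` over `ℚ`, every `d` and all large
`m` there is an `e'` such that for all `i ≤ d` the statement for `h^i(Y)` is equivalent to the one for
`Gr^W_{i+2e'} H^{i+2e'+1}_c(C_m)`. The statements for the pieces of one `C_m` imply those for all
pieces of a given separated scheme `X` of finite type. (In all these statements there are the same
Tate twists on both sides, up to the shift by `e`.)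

(3) `G_m` has integral coefficients and degree at most three, and `C_m` is smooth over all rings.

The hypotheses on the motives are standard (`IsMot`): exact sequences, affine bundles, disjoint unions,
the cohomology of affine spaces, the weights of `H^j_c(X)` are between `0` and `2 dim X`, monomorphisms
split, `Gr^W_w H^j_c(X)` is a direct factor of `h^w(Y)` for some smooth projective `Y` (it is a
subquotient, by the weight spectral sequence), and every smooth projective scheme has an affine bundle
whose total space is affine (Jouanolou).

Idea of the proof. The projection of `C_m` to the affine space with the coordinates `x, z, c, y` is an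
affine bundle over the complement of the zero set `W_m` of the equations. The scheme `W_m` is the
disjoint union, over all sets `s` of relations (`c_r = 1` for `r ∈ s` and `c_r = 0` for the others), of
the products `X_s × 𝔸 ^ ((m + 1) N(s))`, where `X_s` is the affine scheme defined by the relations in
`s` and `N(s) = ∑_{r ∈ s} 2 ^ ν(r)`. The numbers `N(s)` are different, and the weights of the
cohomology of `X_s` are between `0` and `2 m`. So the part of weight `w + 2 (m + 1) N(s)`,
`0 ≤ w ≤ 2 m + 1`, of the cohomology of `W_m` is the twist of the part of weight `w` of the cohomology of
`X_s`, and it is different from the weight of the cohomology of the affine space. Every affine scheme of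
finite type over a prime field is an `X_s`, for all large `m`. The pieces of the cohomology of an
arbitrary scheme are direct factors of those of a disjoint union of affine schemes.

The universal system of relations is the one of helper854 (`Pool.Agent.H854.SQ`).
-/

set_option autoImplicit false

open CategoryTheory CategoryTheory.Limits AlgebraicGeometry Pool.Agent.Y116.UV Pool.Agent.Z125.UN
  Pool.Agent.Q193.LT Pool.Agent.H854.SQ Pool.Agent.H367.OS

universe v u



namespace Pool.Agent.Results.MP_2b5912_ag.PiecesOfOneSequence

/-- **The integral Mumford-Tate conjecture for `H^2` and single pieces of one sequence of cubic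
hypersurfaces over the integers.** See the explanations above. -/
theorem result {M : Type u} [Category.{v} M] [Abelian M] {D : Pieces ℚ M} (h : IsMot D)
    {bounded : M → Prop}
    (inherit : ∀ {N N' : M} (i : N ⟶ N') (r : N' ⟶ N), i ≫ r = 𝟙 N → bounded N' → bounded N)
    {Bounded : ∀ (K : Type) [Field K] [CharZero K], Sch K → Prop}
    (describes : FromQfg Bounded fun Y => bounded ((D.tw 1).obj (D.G 2 2 Y))) :
    (AllFG Bounded ↔ ∃ᶠ m in Filter.atTop, ∀ N : ℕ,
      bounded ((D.tw (1 + esh m N)).obj
        (D.G (2 + 2 * esh m N) (2 + 2 * esh m N + 1) (cubG ℚ m)))) ∧
    DecidesPieces D bounded ∧
    ∀ m : ℕ, (univG ℤ m).totalDegree ≤ 3 ∧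
      ∀ (R : Type) [CommRing R], MvPolynomial.map (Int.castRingHom R) (univG ℤ m) = univG R m ∧
        Smooth (cubG R m).hom := by
  have hf : FactorClosed bounded := by
    rintro N N' ⟨i, r, e⟩ hN
    exact inherit i r e hN
  have hd := decides_pieces isPrimeField_rat h hf
  exact ⟨describes.all.trans ((hd.weight 2 1).out 1 0), hd, cubG_facts⟩

end Pool.Agent.Results.MP_2b5912_ag.PiecesOfOneSequence
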